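import Pool.Agent.helper34.AC.Spec3

set_option autoImplicit false

open Filter Topology

namespace Pool.Agent.helper34.AC

theorem AN3_conv (g X : ℝ) (hg : 0 < g) (hX : 0 ≤ X) :
    g * Real.log g + X * (1 + Real.log g) ≤ (g + X) * Real.log (g + X) := by
  have h1 : 0 < g + X := by linarith
  have h2 : Real.log (g / (g + X)) ≤ g / (g + X) - 1 := Real.log_le_sub_one_of_pos (div_pos hg h1)
  rw [Real.log_div hg.ne' h1.ne'] at h2
  have h3 : (g + X) * (Real.log g - Real.log (g + X)) ≤ (g + X) * (g / (g + X) - 1) :=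
    mul_le_mul_of_nonneg_left h2 h1.le
  have h4 : (g + X) * (g / (g + X) - 1) = -X := by field_simp; ring
  rw [h4] at h3
  nlinarith

theorem AN3_step (g X x om y a C e : ℝ) (hg : 1 ≤ g) (hC : 0 < C) (he : 0 < e)
    (he1 : e ≤ 1 / 100) (heC : C * e ≤ 1 / 100) (hx : 0 < x) (hX : 0 < X)
    (h1 : |x * om - 1| ≤ e) (h2 : |y - x ^ 3 / g| ≤ e * (x ^ 3 / g))
    (h8 : (1 + om) ^ 8 ≤ e * g) (hom : 1 / e ≤ om)
    (hXLI : |1 - X * (1 + om) - y * (om + om ^ 2 / 2)| ≤ C * (1 + om) ^ 3 / g ^ 2)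
    (ha : 3 / 4 ≤ a) :
    X / g / 8 ≤ X * (1 + om) - 1 + X * a / g := by
  have hg0 : 0 < g := by linarith
  have hom100 : 100 ≤ om := by
    have : (100 : ℝ) ≤ 1 / e := by
      rw [le_div_iff₀ he]; linarith
    linarith
  have hom0 : 0 < om := by linarith
  have hxo1 : x * om ≤ 1 + 1 / 100 := by
    have := (abs_le.1 h1).2; linarith
  have hxo2 : 1 - 1 / 100 ≤ x * om := by
    have := (abs_le.1 h1).1; linarith
  have hxs : x ≤ 1 / 90 := by nlinarith
  -- y bound
  have hy : y ≤ (1 + 1 / 100) * (x ^ 3 / g) := by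
    have h3 := (abs_le.1 h2).2
    have h4 : 0 < x ^ 3 / g := by positivity
    nlinarith
  have hyo : y * (om + om ^ 2 / 2) ≤ 535 / 1000 * (x / g) := by
    have h5 : y * (om + om ^ 2 / 2) ≤ (1 + 1 / 100) * (x ^ 3 / g) * (om + om ^ 2 / 2) :=
      mul_le_mul_of_nonneg_right hy (by positivity)
    have h6 : (1 + 1 / 100) * (x ^ 3 / g) * (om + om ^ 2 / 2)
        = (1 + 1 / 100) * (x * (x * om) + (x * om) ^ 2 / 2) * (x / g) := by
      field_simp
    rw [h6] at h5
    have h7 : (1 + 1 / 100) * (x * (x * om) + (x * om) ^ 2 / 2) ≤ (535 / 1000 : ℝ) := by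
      have h8a : x * (x * om) ≤ 1 / 90 * (1 + 1 / 100) :=
        mul_le_mul hxs hxo1 (by positivity) (by norm_num)
      have h8b : (x * om) ^ 2 ≤ (1 + 1 / 100) ^ 2 :=
        pow_le_pow_left₀ (by positivity) hxo1 2
      nlinarith
    exact h5.trans (mul_le_mul_of_nonneg_right h7 (by positivity))
  have hCt : C * (1 + om) ^ 3 / g ^ 2 ≤ 11 / 1000 * (x / g) := by
    have h9 : C * (1 + om) ^ 4 ≤ g / 100 := by
      have h10 : (1 + om) ^ 4 ≤ (1 + om) ^ 8 := pow_le_pow_right₀ (by linarith) (by norm_num)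
      calc C * (1 + om) ^ 4 ≤ C * (e * g) := mul_le_mul_of_nonneg_left (h10.trans h8) hC.le
        _ = (C * e) * g := by ring
        _ ≤ 1 / 100 * g := mul_le_mul_of_nonneg_right heC hg0.le
        _ = g / 100 := by ring
    have h11 : C * (1 + om) ^ 3 * (1 + om) ≤ g / 100 := by
      calc C * (1 + om) ^ 3 * (1 + om) = C * (1 + om) ^ 4 := by ring
        _ ≤ g / 100 := h9
    have h12 : C * (1 + om) ^ 3 ≤ g / 100 / (1 + om) := by
      rw [le_div_iff₀ (by linarith)]; exact h11
    have h13 : 1 / (1 + om) ≤ x * (100 / 99) := by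
      rw [div_le_iff₀ (by linarith)]
      nlinarith
    have h14 : C * (1 + om) ^ 3 ≤ 11 / 1000 * x * g := by
      calc C * (1 + om) ^ 3 ≤ g / 100 / (1 + om) := h12
        _ = g / 100 * (1 / (1 + om)) := by ring
        _ ≤ g / 100 * (x * (100 / 99)) := mul_le_mul_of_nonneg_left h13 (by positivity)
        _ ≤ 11 / 1000 * x * g := by nlinarith [mul_pos hx hg0]
    rw [div_le_iff₀ (by positivity)]
    calc C * (1 + om) ^ 3 ≤ 11 / 1000 * x * g := h14
      _ = 11 / 1000 * (x / g) * g ^ 2 := by field_simp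
  have hlow : -(546 / 1000 * (x / g)) ≤ X * (1 + om) - 1 := by
    have h15 := (abs_le.1 hXLI).2
    linarith
  have hxg : x / g ≤ x := div_le_self hx.le hg
  have hXx : x ≤ 104 / 100 * X := by
    -- X (1+om) ≥ 1 - 0.546/90
    have h16 : 1 - 7 / 1000 ≤ X * (1 + om) := by linarith
    have h17 : X * (1 + om) ≤ X * om * (101 / 100) := by nlinarith
    have h18 : (1 - 7 / 1000) * (100 / 101) ≤ X * om := by linarith
    have h19 : x * om ≤ 104 / 100 * X * om := by nlinarith
    exact le_of_mul_le_mul_right h19 hom0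
  have h20 : X * a / g ≥ 3 / 4 * (X / g) := by
    have : X * a / g = a * (X / g) := by ring
    rw [this]
    exact mul_le_mul_of_nonneg_right ha (by positivity)
  have h21 : x / g ≤ 104 / 100 * (X / g) := by
    calc x / g ≤ (104 / 100 * X) / g := by gcongr
      _ = 104 / 100 * (X / g) := by ring
  have h22 : 0 < X / g := by positivity
  nlinarith

theorem AN3 (hBUP : BUP_stmt) (hBRC : BRC_stmt) (hBLO : BLO_stmt) (hOMF : OMF_stmt)
    (hASY : ASY_stmt) (hXLI : XLI_stmt) (hD23 : D23_stmt) : AN3_stmt := by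
  obtain ⟨h0, hrec, hF0, hF1, hFpos, hbpos, hder⟩ := hBRC
  obtain ⟨hxpos, -, -, hgmono⟩ := hD23
  obtain ⟨C, hC, M1, hM1⟩ := hXLI
  set e : ℝ := 1 / (100 * (C + 1)) with hedef
  have he : 0 < e := by positivity
  have he1 : e ≤ 1 / 100 := by
    rw [hedef]
    apply one_div_le_one_div_of_le (by norm_num)
    linarith
  have heC : C * e ≤ 1 / 100 := by
    rw [hedef, mul_one_div, div_le_iff₀ (by positivity)]
    nlinarith
  obtain ⟨M2, hM2⟩ := hASY e he
  have hg1 : ∀ n, 1 ≤ gb n := fun n => (hBLO n).1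
  have haup : ∀ n, gb n * Real.log (gb n) ≤ (n : ℝ) + 1 := by
    intro n
    have h := (hBUP n 0 le_rfl).2
    rw [hF0, hF0, sub_zero] at h
    exact h
  refine ⟨max M1 M2, fun n hn => ?_⟩
  by_contra hcon
  push Not at hcon
  -- step
  have hstep : ∀ k, max M1 M2 ≤ k → 3 / 4 ≤ gb k * Real.log (gb k) - k →
      gb k * Real.log (gb k) - k + (Real.log (gb (k + 1)) - Real.log (gb k)) / 8
        ≤ gb (k + 1) * Real.log (gb (k + 1)) - ((k + 1 : ℕ) : ℝ) ∧
      Real.log (gb k) ≤ Real.log (gb (k + 1)) := by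
    intro k hk ha
    have hk1 : M1 ≤ k := (le_max_left _ _).trans hk
    have hk2 : M2 ≤ k := (le_max_right _ _).trans hk
    obtain ⟨a1, a2, a3, a4, a5, a6, a7, a8⟩ := hM2 k hk2
    obtain ⟨b1, b2, b3, b4⟩ := hM1 k hk1
    have hg := hg1 k
    have hg0 : 0 < gb k := by linarith
    have hX : 0 < xx (k + 1) := (hxpos k).1
    have hXeq : gb (k + 1) = gb k + xx (k + 1) := by
      unfold xx
      simp
    have hs := AN3_step (gb k) (xx (k + 1)) (xx k) (om k) (yy k)
      (gb k * Real.log (gb k) - k) C e hg hC he he1 heC a8 hX a1 a2 a4 a5 b1 ha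
    have hcv := AN3_conv (gb k) (xx (k + 1)) hg0 hX.le
    have hlog : Real.log (gb k) = om k + (gb k * Real.log (gb k) - k) / gb k := by
      unfold om
      field_simp
      ring
    have hlogs : Real.log (gb (k + 1)) - Real.log (gb k) ≤ xx (k + 1) / gb k := by
      rw [← Real.log_div (by rw [hXeq]; positivity) hg0.ne', hXeq]
      have h : Real.log ((gb k + xx (k + 1)) / gb k) ≤ (gb k + xx (k + 1)) / gb k - 1 :=
        Real.log_le_sub_one_of_pos (by positivity)
      have h' : (gb k + xx (k + 1)) / gb k - 1 = xx (k + 1) / gb k := by field_simp; ring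
      linarith
    constructor
    · rw [hXeq] at hlogs ⊢
      have hcast : ((k + 1 : ℕ) : ℝ) = (k : ℝ) + 1 := by push_cast; ring
      rw [hcast]
      have e1 : xx (k + 1) * (1 + Real.log (gb k))
          = xx (k + 1) * (1 + om k) + xx (k + 1) * (gb k * Real.log (gb k) - k) / gb k := by
        calc xx (k + 1) * (1 + Real.log (gb k))
            = xx (k + 1) * (1 + (om k + (gb k * Real.log (gb k) - k) / gb k)) := by
              rw [← hlog]
          _ = xx (k + 1) * (1 + om k) + xx (k + 1) * (gb k * Real.log (gb k) - k) / gb k := by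
              ring
      have e2 : (Real.log (gb k + xx (k + 1)) - Real.log (gb k)) / 8 ≤ xx (k + 1) / gb k / 8 := by
        linarith
      linarith
    · apply Real.log_le_log hg0
      rw [hXeq]; linarith
  have hind : ∀ j : ℕ, 3 / 4 ≤ gb (n + j) * Real.log (gb (n + j)) - ((n + j : ℕ) : ℝ) ∧
      3 / 4 + (Real.log (gb (n + j)) - Real.log (gb n)) / 8
        ≤ gb (n + j) * Real.log (gb (n + j)) - ((n + j : ℕ) : ℝ) ∧
      Real.log (gb n) ≤ Real.log (gb (n + j)) := by
    intro j
    induction j with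
    | zero =>
      refine ⟨by simp only [Nat.add_zero]; linarith, ?_, le_rfl⟩
      simp only [Nat.add_zero]
      linarith
    | succ j ih =>
      obtain ⟨i1, i2, i3⟩ := ih
      have h := hstep (n + j) (by omega) i1
      have e3 : n + (j + 1) = n + j + 1 := by ring
      rw [e3]
      obtain ⟨h1, h2⟩ := h
      refine ⟨by linarith, by linarith, by linarith⟩
  -- contradiction: log gb → ∞
  have htend : Tendsto (fun k => Real.log (gb k)) atTop atTop :=
    Real.tendsto_log_atTop.comp hOMF.2.2.2.1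
  have hev := (htend.eventually_gt_atTop (Real.log (gb n) + 2)).exists_forall_of_atTop
  obtain ⟨K, hK⟩ := hev
  have hb := hK (n + K) (by omega)
  obtain ⟨i1, i2, i3⟩ := hind K
  have hup := haup (n + K)
  linarith

end Pool.Agent.helper34.AC
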